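import Mathlib

/-! # MP_a6de22_an, Q1: normal defects of a cyclic weighted shift and of its truncation

Q1 is false for `n = 4` and the weights `(1, 2, 1, 1)`: the cyclic matrix `A` has `ε (A) = 1` and
`nd (A) = 2`, while the truncation `Ã` has `ε (Ã) = 2` and `nd (Ã) = 2`. The normal completions
are explicit: a `7 × 7` matrix of integers for `Ã`, a `6 × 6` matrix with entries
`0, ±1, 2, ±√3` for `A`. -/

namespace Pool.Agent.Results.MP_a6de22_an.ShiftDefect

open Matrix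

/-- `X` has a normal completion with `k` additional rows and columns. -/
def HasCompletion {m : ℕ} (X : Matrix (Fin m) (Fin m) ℂ) (k : ℕ) : Prop :=
  ∃ N : Matrix (Fin m ⊕ Fin k) (Fin m ⊕ Fin k) ℂ, N * Nᴴ = Nᴴ * N ∧ N.toBlocks₁₁ = X

/-- The normal defect. -/
noncomputable def nd {m : ℕ} (X : Matrix (Fin m) (Fin m) ℂ) : ℕ := sInf {k | HasCompletion X k}

/-- The number of positive eigenvalues of a Hermitian matrix, with multiplicity. -/
noncomputable def iPos {m : ℕ} (M : Matrix (Fin m) (Fin m) ℂ) : ℕ :=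
  open Classical in Multiset.card (M.charpoly.roots.filter fun z => 0 < z.re)

/-- The number of negative eigenvalues of a Hermitian matrix, with multiplicity. -/
noncomputable def iNeg {m : ℕ} (M : Matrix (Fin m) (Fin m) ℂ) : ℕ :=
  open Classical in Multiset.card (M.charpoly.roots.filter fun z => z.re < 0)

/-- `ε (X) = max (i₊ [X, X*], i₋ [X, X*])`. -/
noncomputable def eps {m : ℕ} (X : Matrix (Fin m) (Fin m) ℂ) : ℕ :=
  max (iPos (X * Xᴴ - Xᴴ * X)) (iNeg (X * Xᴴ - Xᴴ * X))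

/-- The cyclic weighted shift `A`, with indices numbered from `0`. -/
def cyc {n : ℕ} (a : Fin n → ℂ) : Matrix (Fin n) (Fin n) ℂ :=
  Matrix.of fun i j => if (j : ℕ) = (i : ℕ) + 1 ∨ ((i : ℕ) + 1 = n ∧ (j : ℕ) = 0) then a i else 0

/-- The truncation `Ã`, with indices numbered from `0`. -/
def trunc {n : ℕ} (a : Fin n → ℂ) : Matrix (Fin (n + 1)) (Fin (n + 1)) ℂ :=
  Matrix.of fun i j => if h : (i : ℕ) < n then (if (j : ℕ) = (i : ℕ) + 1 then a ⟨i, h⟩ else 0) else 0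

/-- The weights of the counterexample. -/
def a0 : Fin 4 → ℂ := ![1, 2, 1, 1]

lemma cyc_a0 : cyc a0 = !![0, 1, 0, 0; 0, 0, 2, 0; 0, 0, 0, 1; 1, 0, 0, 0] := by
  ext i j
  fin_cases i <;> fin_cases j <;> simp [cyc, a0]

lemma trunc_a0 : trunc a0 =
    !![0, 1, 0, 0, 0; 0, 0, 2, 0, 0; 0, 0, 0, 1, 0; 0, 0, 0, 0, 1; 0, 0, 0, 0, 0] := by
  ext i j
  fin_cases i <;> fin_cases j <;> simp [trunc, a0]

lemma c2 : (starRingEnd ℂ) 2 = 2 := map_ofNat (starRingEnd ℂ) 2

lemma c3 : (starRingEnd ℂ) 3 = 3 := map_ofNat (starRingEnd ℂ) 3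

lemma c4 : (starRingEnd ℂ) 4 = 4 := map_ofNat (starRingEnd ℂ) 4

lemma comm_cyc : cyc a0 * (cyc a0)ᴴ - (cyc a0)ᴴ * cyc a0 = Matrix.diagonal ![0, 3, -3, 0] := by
  rw [cyc_a0]
  ext i j
  simp only [Matrix.sub_apply, Matrix.mul_apply, Matrix.conjTranspose_apply, Fin.sum_univ_four]
  fin_cases i <;> fin_cases j <;> simp [Matrix.diagonal] <;> norm_num

lemma comm_trunc : trunc a0 * (trunc a0)ᴴ - (trunc a0)ᴴ * trunc a0
    = Matrix.diagonal ![1, 3, -3, 0, -1] := by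
  rw [trunc_a0]
  ext i j
  simp only [Matrix.sub_apply, Matrix.mul_apply, Matrix.conjTranspose_apply]
  fin_cases i <;> fin_cases j <;> simp [Matrix.diagonal, Fin.sum_univ_succ, c2] <;> norm_num

lemma roots_diag {m : ℕ} (d : Fin m → ℂ) :
    (Matrix.diagonal d).charpoly.roots = Multiset.map d Finset.univ.val := by
  rw [Matrix.charpoly_diagonal]
  exact Polynomial.roots_multiset_prod_X_sub_C (Multiset.map d Finset.univ.val) ▸ by
    rw [Multiset.map_map]; rfl

lemma eps_cyc : eps (cyc a0) = 1 := by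
  unfold eps iPos iNeg
  rw [comm_cyc, roots_diag]
  have : (Finset.univ : Finset (Fin 4)).val = {0, 1, 2, 3} := rfl
  rw [this]
  simp [Multiset.filter_singleton]

lemma eps_trunc : eps (trunc a0) = 2 := by
  unfold eps iPos iNeg
  rw [comm_trunc, roots_diag]
  have : (Finset.univ : Finset (Fin 5)).val = {0, 1, 2, 3, 4} := rfl
  rw [this]
  simp [Multiset.filter_singleton]

/-- A block matrix is normal as soon as its blocks satisfy the three equations. -/
lemma normal_of_blocks {m k : ℕ} (X : Matrix (Fin m) (Fin m) ℂ) (Y : Matrix (Fin m) (Fin k) ℂ)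
    (Z : Matrix (Fin k) (Fin m) ℂ) (W : Matrix (Fin k) (Fin k) ℂ)
    (h1 : X * Xᴴ + Y * Yᴴ = Xᴴ * X + Zᴴ * Z) (h2 : X * Zᴴ + Y * Wᴴ = Xᴴ * Y + Zᴴ * W)
    (h3 : Z * Zᴴ + W * Wᴴ = Yᴴ * Y + Wᴴ * W) : HasCompletion X k := by
  refine ⟨Matrix.fromBlocks X Y Z W, ?_, by simp⟩
  rw [Matrix.fromBlocks_conjTranspose, Matrix.fromBlocks_multiply, Matrix.fromBlocks_multiply,
    h1, h2, h3]
  congr 1
  have := congrArg Matrix.conjTranspose h2
  simpa [Matrix.conjTranspose_add, Matrix.conjTranspose_mul] using this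

lemma blocks_of_completion {m k : ℕ} {X : Matrix (Fin m) (Fin m) ℂ} (h : HasCompletion X k) :
    ∃ (Y : Matrix (Fin m) (Fin k) ℂ) (Z : Matrix (Fin k) (Fin m) ℂ)
      (W : Matrix (Fin k) (Fin k) ℂ), X * Xᴴ + Y * Yᴴ = Xᴴ * X + Zᴴ * Z ∧
      X * Zᴴ + Y * Wᴴ = Xᴴ * Y + Zᴴ * W := by
  obtain ⟨N, hN, hX⟩ := h
  refine ⟨N.toBlocks₁₂, N.toBlocks₂₁, N.toBlocks₂₂, ?_⟩
  rw [← Matrix.fromBlocks_toBlocks N, hX, Matrix.fromBlocks_conjTranspose,
    Matrix.fromBlocks_multiply, Matrix.fromBlocks_multiply] at hN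
  have h1 := Matrix.fromBlocks_inj.1 hN
  exact ⟨h1.1, h1.2.1⟩

lemma cyc_two : HasCompletion (cyc a0) 2 := by
  have h3 : (Real.sqrt 3 : ℂ) * (Real.sqrt 3 : ℂ) = 3 := by
    rw [← Complex.ofReal_mul, Real.mul_self_sqrt (by norm_num)]; norm_num
  rw [cyc_a0]
  refine normal_of_blocks _ (!![-(Real.sqrt 3 : ℂ), 0; 0, 0; 0, (Real.sqrt 3 : ℂ); 0, 0])
    (!![0, -(Real.sqrt 3 : ℂ), 0, 0; (Real.sqrt 3 : ℂ), 0, 0, 0]) (!![-1, 0; 0, 0]) ?_ ?_ ?_
  · ext i j
    simp only [Matrix.add_apply, Matrix.mul_apply, Matrix.conjTranspose_apply]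
    fin_cases i <;> fin_cases j <;> simp [Fin.sum_univ_succ, h3, c2] <;> norm_num
  · ext i j
    simp only [Matrix.add_apply, Matrix.mul_apply, Matrix.conjTranspose_apply]
    fin_cases i <;> fin_cases j <;> simp [Fin.sum_univ_succ, h3, c2]
  · ext i j
    simp only [Matrix.add_apply, Matrix.mul_apply, Matrix.conjTranspose_apply]
    fin_cases i <;> fin_cases j <;> simp [Fin.sum_univ_succ, h3, c2]

lemma trunc_two : HasCompletion (trunc a0) 2 := by
  rw [trunc_a0]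
  refine normal_of_blocks _ (!![0, 0; 3, 2; 0, 2; 0, 0; 2, 1])
    (!![1, 0, 0, 0, 0; 0, 4, 1, 0, 2]) (!![0, 4; 2, 4]) ?_ ?_ ?_
  · ext i j
    simp only [Matrix.add_apply, Matrix.mul_apply, Matrix.conjTranspose_apply]
    fin_cases i <;> fin_cases j <;> simp [Fin.sum_univ_succ, c2, c3, c4] <;> norm_num
  · ext i j
    simp only [Matrix.add_apply, Matrix.mul_apply, Matrix.conjTranspose_apply]
    fin_cases i <;> fin_cases j <;> simp [Fin.sum_univ_succ, c2, c3, c4] <;> norm_num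
  · ext i j
    simp only [Matrix.add_apply, Matrix.mul_apply, Matrix.conjTranspose_apply]
    fin_cases i <;> fin_cases j <;> simp [Fin.sum_univ_succ, c2, c3, c4] <;> norm_num

/-- The commutator of a matrix with a normal completion, entrywise. -/
lemma comm_entry {m k : ℕ} {X : Matrix (Fin m) (Fin m) ℂ} {Y : Matrix (Fin m) (Fin k) ℂ}
    {Z : Matrix (Fin k) (Fin m) ℂ} (h : X * Xᴴ + Y * Yᴴ = Xᴴ * X + Zᴴ * Z) (i j : Fin m) :
    (X * Xᴴ - Xᴴ * X) i j = ∑ l, star (Z l i) * Z l j - ∑ l, Y i l * star (Y j l) := by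
  have h' : X * Xᴴ - Xᴴ * X = Zᴴ * Z - Y * Yᴴ := by
    rw [sub_eq_sub_iff_add_eq_add, h, add_comm]
  rw [h']
  simp [Matrix.mul_apply, Matrix.conjTranspose_apply]

lemma diag_entry {m : ℕ} {X : Matrix (Fin m) (Fin m) ℂ} {Y : Matrix (Fin m) (Fin 1) ℂ}
    {Z : Matrix (Fin 1) (Fin m) ℂ} (h : X * Xᴴ + Y * Yᴴ = Xᴴ * X + Zᴴ * Z) (i : Fin m) (r : ℝ)
    (hr : (X * Xᴴ - Xᴴ * X) i i = (r : ℂ)) :
    Complex.normSq (Z 0 i) = r + Complex.normSq (Y i 0) := by
  have := comm_entry h i i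
  rw [hr] at this
  simp only [Finset.univ_unique, Fin.default_eq_zero, Finset.sum_singleton, Complex.star_def,
    ← Complex.normSq_eq_conj_mul_self, Complex.mul_conj] at this
  have h2 : (r : ℝ) = Complex.normSq (Z 0 i) - Complex.normSq (Y i 0) := by exact_mod_cast this
  linarith

lemma off_entry {m : ℕ} {X : Matrix (Fin m) (Fin m) ℂ} {Y : Matrix (Fin m) (Fin 1) ℂ}
    {Z : Matrix (Fin 1) (Fin m) ℂ} (h : X * Xᴴ + Y * Yᴴ = Xᴴ * X + Zᴴ * Z) (i j : Fin m)
    (hr : (X * Xᴴ - Xᴴ * X) i j = 0) :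
    Complex.normSq (Z 0 i) * Complex.normSq (Z 0 j)
      = Complex.normSq (Y i 0) * Complex.normSq (Y j 0) := by
  have := comm_entry h i j
  rw [hr] at this
  simp only [Finset.univ_unique, Fin.default_eq_zero, Finset.sum_singleton,
    Complex.star_def] at this
  have h2 := congrArg Complex.normSq (sub_eq_zero.1 this.symm)
  simpa [Complex.normSq_mul, Complex.normSq_conj] using h2

lemma cyc_not_zero : ¬ HasCompletion (cyc a0) 0 := by
  intro h
  obtain ⟨Y, Z, W, h1, h2⟩ := blocks_of_completion h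
  have := comm_entry h1 1 1
  rw [comm_cyc] at this
  simp at this

lemma trunc_not_zero : ¬ HasCompletion (trunc a0) 0 := by
  intro h
  obtain ⟨Y, Z, W, h1, h2⟩ := blocks_of_completion h
  have := comm_entry h1 1 1
  rw [comm_trunc] at this
  simp at this

lemma trunc_not_one : ¬ HasCompletion (trunc a0) 1 := by
  intro h
  obtain ⟨Y, Z, W, h1, h2⟩ := blocks_of_completion h
  have e0 := diag_entry h1 0 1 (by rw [comm_trunc]; simp)
  have e1 := diag_entry h1 1 3 (by rw [comm_trunc]; simp)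
  have e2 := off_entry h1 0 1 (by rw [comm_trunc]; simp)
  rw [e0, e1] at e2
  have := Complex.normSq_nonneg (Y 0 0)
  have := Complex.normSq_nonneg (Y 1 0)
  nlinarith

lemma cyc_not_one : ¬ HasCompletion (cyc a0) 1 := by
  intro h
  obtain ⟨Y, Z, W, h1, h2⟩ := blocks_of_completion h
  have e0 := diag_entry h1 0 0 (by rw [comm_cyc]; simp)
  have e1 := diag_entry h1 1 3 (by rw [comm_cyc]; simp)
  have e3 := diag_entry h1 3 0 (by rw [comm_cyc]; simp)
  have e01 := off_entry h1 0 1 (by rw [comm_cyc]; simp)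
  have e31 := off_entry h1 3 1 (by rw [comm_cyc]; simp)
  have hy0 : Complex.normSq (Y 0 0) = 0 := by
    rw [e0, e1] at e01
    linarith
  have hy3 : Complex.normSq (Y 3 0) = 0 := by
    rw [e3, e1] at e31
    linarith
  have hz0 : Z 0 0 = 0 := by
    rw [← Complex.normSq_eq_zero, e0, hy0]; norm_num
  have h5 := congrFun (congrFun h2 0) 0
  rw [Complex.normSq_eq_zero] at hy0 hy3
  rw [cyc_a0] at h5
  simp only [Matrix.add_apply, Matrix.mul_apply, Matrix.conjTranspose_apply,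
    Fin.sum_univ_four] at h5
  simp [hy0, hy3, hz0] at h5
  have := Complex.normSq_nonneg (Y 1 0)
  rw [h5] at e1
  simp at e1
  linarith

lemma nd_eq_two {m : ℕ} {X : Matrix (Fin m) (Fin m) ℂ} (h0 : ¬ HasCompletion X 0)
    (h1 : ¬ HasCompletion X 1) (h2 : HasCompletion X 2) : nd X = 2 := by
  unfold nd
  apply le_antisymm (Nat.sInf_le h2)
  have hm : HasCompletion X (sInf {k | HasCompletion X k}) := Nat.sInf_mem (s := {k | HasCompletion X k}) ⟨2, h2⟩
  by_contra hlt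
  push Not at hlt
  interval_cases h : sInf {k | HasCompletion X k}
  · exact h0 hm
  · exact h1 hm

theorem result :
    (∃ n ≥ 4, ∃ a : Fin n → ℂ, nd (cyc a) = eps (cyc a) + 1 ∧
      nd (trunc a) ≠ eps (trunc a) + 1) ∧
    (nd (cyc a0) = 2 ∧ eps (cyc a0) = 1 ∧ nd (trunc a0) = 2 ∧ eps (trunc a0) = 2) := by
  have hc : nd (cyc a0) = 2 := nd_eq_two cyc_not_zero cyc_not_one cyc_two
  have ht : nd (trunc a0) = 2 := nd_eq_two trunc_not_zero trunc_not_one trunc_two
  refine ⟨⟨4, le_refl _, a0, ?_, ?_⟩, hc, eps_cyc, ht, eps_trunc⟩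
  · rw [hc, eps_cyc]
  · rw [ht, eps_trunc]; norm_num

end Pool.Agent.Results.MP_a6de22_an.ShiftDefect
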